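import Pool.Agent.Hhelper97.NodeBlow.ExcI

set_option autoImplicit false

open Filter Topology MvPolynomial
open Pool.Agent.Hhelper97.NodeBlow Pool.Agent.Hhelper97.WHTriv

namespace Pool.Agent.Results.MP_f1850b_ag.IsolatedSingularities

/-- Isolated weighted homogeneous singularities, every dimension `r = k + 2 ≥ 2` and every
multiplicity `m = n + 4 ≥ 4`.  The polynomials
`f_t = x y ^ (m - 1) + t y ^ (m - 2) z ^ 2 + x ^ d + z ^ b + ∑ w_j ^ b`, with `b = 2 m - 3` and
`d = (2 m - 3) (m - 2)`, in `r + 1` variables are, for all small `t`, weighted homogeneous of one type,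
of order exactly `m` at the origin, with the origin as their only critical point, and
`f_t = f_0 ∘ Ψ` for a homeomorphism `Ψ` of `ℂ ^ (r + 1)` which fixes the origin.  But the exceptional
variety of the blow-up of the origin of `f_0 = 0` has a point at which its germ is topologically
equisingular to no germ of the exceptional variety of `f_t = 0`, for any small `t ≠ 0`. -/
theorem result (k n : ℕ) :
    ∃ P ∈ exc (FI k n 0), ∃ ε > 0, ∀ t : ℂ, ‖t‖ < ε →
      (FI k n t).IsWeightedHomogeneous (wt k n) ((2 * n + 5) * (n + 2)) ∧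
      ((∀ l < n + 4, homogeneousComponent l (FI k n t) = 0) ∧
        homogeneousComponent (n + 4) (FI k n t) ≠ 0) ∧
      (∀ p, (∀ i, eval p (pderiv i (FI k n t)) = 0) → p = 0) ∧
      (∃ Ψ : (Fin (k + 3) → ℂ) ≃ₜ (Fin (k + 3) → ℂ), Ψ 0 = 0 ∧
        ∀ p, eval (Ψ p) (FI k n 0) = eval p (FI k n t)) ∧
      (t ≠ 0 → ∀ Q : Pr k, ¬ TopEquisingular (exc (FI k n 0)) P (exc (FI k n t)) Q) := by
  refine ⟨chart 2 0, ?_, ?_⟩
  · rw [excI_eq, chart_mem_Ez]
    left
    rw [ins_two_one]
    rfl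
  · obtain ⟨ε1, hε1, h1⟩ := wh_trivial (wt_pos (k := k) n) (wt_lt n) (wh_FI0 n) (wh_hI n)
      (by have := dg_ge n; omega) (crit_FI0 n)
    obtain ⟨ε2, hε2, h2⟩ := crit_stable (wt_pos (k := k) n) (wt_lt n) (wh_FI0 n) (wh_hI n)
      (crit_FI0 n)
    refine ⟨min ε1 ε2, lt_min hε1 hε2, ?_⟩
    intro t ht
    refine ⟨wh_FI n t, order_FI n t, ?_, ?_, ?_⟩
    · rw [FI_eq]
      exact h2 t (ht.trans_le (min_le_right _ _))
    · obtain ⟨Ψ, h3, h4⟩ := h1 t (ht.trans_le (min_le_left _ _))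
      refine ⟨Ψ, h3, ?_⟩
      rw [FI_eq k n t]
      exact h4
    · intro ht0 Q
      rw [excI_eq, excI_eq]
      rintro ⟨h, hP, hQ, hA⟩
      apply not_GE ht0 Q
      refine ⟨h, hP, hQ, ?_⟩
      filter_upwards [h.open_source.mem_nhds hP] with u hu
      exact hA u hu

end Pool.Agent.Results.MP_f1850b_ag.IsolatedSingularities
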