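import Pool.Agent.Hhelper19.ZQ.Comp

set_option autoImplicit false

namespace Pool.Agent.Results.MP_f1850b_ag.ManyExceptionalCurves

open Pool.Agent.ZQ MvPolynomial

/-- For every `α` in `(0, 1)` and every `n` there are `n` irreducible polynomials in three
variables, vanishing at the origin to the same order, whose zero sets are pairwise equivalent by
homeomorphisms of complex three-space which fix the origin and are, together with their inverses,
`α`-Hoelder near the origin, but whose exceptional varieties (in the blow-up of the origin) are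
pairwise not homeomorphic. -/
theorem result (α : ℝ) (hα0 : 0 < α) (hα1 : α < 1) (n : ℕ) :
    ∃ (F : Fin n → MvPolynomial (Fin 3) ℂ) (m : ℕ),
      (∀ i, Irreducible (F i) ∧ eval 0 (F i) = 0 ∧
        (∀ d < m, homogeneousComponent d (F i) = 0) ∧ homogeneousComponent m (F i) ≠ 0) ∧
      (∀ i j, ∃ h : E3 ≃ₜ E3, h 0 = 0 ∧ h '' zeroSet (F i) = zeroSet (F j) ∧
        ∃ r : ℝ, 0 < r ∧ ∃ K : ℝ, ∀ p ∈ Metric.ball (0 : E3) r, ∀ q ∈ Metric.ball (0 : E3) r,
          dist (h p) (h q) ≤ K * dist p q ^ α ∧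
          dist (h.symm p) (h.symm q) ≤ K * dist p q ^ α) ∧
      (∀ i j, i ≠ j → IsEmpty (exceptional (zeroSet (F i)) ≃ₜ exceptional (zeroSet (F j)))) := by
  obtain ⟨β, hβ0, hβ1, hαβ, b, hb, hβ⟩ := exists_exponent hα0 hα1
  refine ⟨fun i => Fp n b (i.1 + 1), n * (b + 1) + 1, ?_, ?_, ?_⟩
  · intro i
    have h := mult_Fp (k := n) (b := b) (j := i.1 + 1) (by have := i.2; omega)
    exact ⟨irreducible_Fp (by omega), eval_Fp_zero n b (i.1 + 1), h.1, h.2⟩
  · intro i j
    have hi : i.1 + 1 ≤ n := i.2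
    have hj : j.1 + 1 ≤ n := j.2
    refine ⟨hij hb hi hj, hij_zero hb hi hj, ?_, ?_⟩
    · rw [zeroSet_Fp, zeroSet_Fp]
      exact hij_image hb hi hj
    · obtain ⟨r, hr, K, _, H⟩ := hij_holder hb hi hj hα0 hβ0 hβ1 hαβ hβ
      exact ⟨r, hr, K, H⟩
  · intro i j hij'
    rw [zeroSet_Fp, zeroSet_Fp]
    refine not_homeo (k := n) (b := b) (by omega) (by omega) i.2 (by omega) j.2 ?_
    intro h
    exact hij' (Fin.ext (by omega))

end Pool.Agent.Results.MP_f1850b_ag.ManyExceptionalCurves
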