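import Pool.Agent.Hhelper97.NodeBlow.PolyThree

set_option autoImplicit false

open Filter Topology MvPolynomial
open Pool.Agent.Hhelper97.NodeBlow Pool.Agent.Hhelper97.WHTriv

namespace Pool.Agent.Results.MP_f1850b_ag.MultiplicityThree

/-- Isolated weighted homogeneous singularities of multiplicity three, every dimension
`r = k + 3 ≥ 3`.  The polynomials `f_t = x y ^ 2 + t y z ^ 2 + z ^ 3 w_0 + x ^ 7 + ∑ w_j ^ 7`,
`j = 0, …, k`, in `r + 1` variables are, for all small `t`, weighted homogeneous of one type, of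
order exactly `3` at the origin, with the origin as their only critical point, and
`f_t = f_0 ∘ Ψ` for a homeomorphism `Ψ` of `ℂ ^ (r + 1)` which fixes the origin.  But the
exceptional variety of the blow-up of the origin of `f_0 = 0` has a point at which its germ is
topologically equisingular to no germ of the exceptional variety of `f_t = 0`, for any small
`t ≠ 0`. -/
theorem result (k : ℕ) :
    ∃ P ∈ exc (FM k 0), ∃ ε > 0, ∀ t : ℂ, ‖t‖ < ε →
      (FM k t).IsWeightedHomogeneous (wtM k) 7 ∧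
      ((∀ l < 3, homogeneousComponent l (FM k t) = 0) ∧
        homogeneousComponent 3 (FM k t) ≠ 0) ∧
      (∀ p, (∀ i, eval p (pderiv i (FM k t)) = 0) → p = 0) ∧
      (∃ Ψ : (Fin (k + 1 + 3) → ℂ) ≃ₜ (Fin (k + 1 + 3) → ℂ), Ψ 0 = 0 ∧
        ∀ p, eval (Ψ p) (FM k 0) = eval p (FM k t)) ∧
      (t ≠ 0 → ∀ Q : Pr (k + 1), ¬ TopEquisingular (exc (FM k 0)) P (exc (FM k t)) Q) := by
  refine ⟨chart 2 0, ?_, ?_⟩
  · rw [exc_FM, chart_mem_Ez]
    left
    rw [ins_two_one]
    rfl
  · obtain ⟨ε1, hε1, h1⟩ := wh_trivial wtM_pos wtM_lt wh_FM0 wh_hM (by norm_num) crit_FM0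
    obtain ⟨ε2, hε2, h2⟩ := crit_stable wtM_pos wtM_lt wh_FM0 wh_hM (crit_FM0 (k := k))
    refine ⟨min ε1 ε2, lt_min hε1 hε2, ?_⟩
    intro t ht
    refine ⟨wh_FM t, order_FM t, ?_, ?_, ?_⟩
    · rw [FM_eq]
      exact h2 t (ht.trans_le (min_le_right _ _))
    · obtain ⟨Ψ, h3, h4⟩ := h1 t (ht.trans_le (min_le_left _ _))
      refine ⟨Ψ, h3, ?_⟩
      rw [FM_eq k t]
      exact h4
    · intro ht0 Q
      rw [exc_FM, exc_FM]
      rintro ⟨h, hP, hQ, hA⟩
      apply not_GE ht0 Q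
      refine ⟨h, hP, hQ, ?_⟩
      filter_upwards [h.open_source.mem_nhds hP] with u hu
      exact hA u hu

end Pool.Agent.Results.MP_f1850b_ag.MultiplicityThree
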