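import Pool.Agent.Hhelper97.TopBlow.Upper

set_option autoImplicit false

open Finset MvPolynomial
open Pool.Agent.Hhelper97.TopBlow

namespace Pool.Agent.Results.MP_f1850b_ag.TrivialFamily

open Classical in
/-- `F_t = FF N e t`, `t ∈ ℂ^N`, is a family of polynomials in `x, y, z`, affine in `t`.  If `e ≠ 0`
or `N ≠ 1`, then: every `F_t` is irreducible, of order exactly `m = 3 N + e + 1` at the origin, and
its zero set `V_t` is smooth off the line `y = z = 0`; the family `(V_t)` is topologically trivial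
over `ℂ^N`, by a homeomorphism of `ℂ^3 × ℂ^N` over `ℂ^N` which preserves `y` and `z` and is the
identity for `z = 0`; in particular any two `V_t` are carried onto each other by a homeomorphism of
`ℂ^3` which fixes the origin; and the exceptional curves of the blow-ups of the origin of `V_t` and
`V_t'` are not homeomorphic if `t` and `t'` have different numbers of coordinates which are not
zero. -/
theorem result (N e : ℕ) (hNe : e ≠ 0 ∨ N ≠ 1) :
    (∀ t : Fin N → ℂ, Irreducible (FF N e t)) ∧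
    (∀ t : Fin N → ℂ, (∀ k < 3 * N + e + 1, homogeneousComponent k (FF N e t) = 0) ∧
      homogeneousComponent (3 * N + e + 1) (FF N e t) ≠ 0) ∧
    (∀ t : Fin N → ℂ, ∀ p ∈ zeros (FF N e t), p 1 ≠ 0 ∨ p 2 ≠ 0 →
      eval p (pderiv 0 (FF N e t)) ≠ 0) ∧
    (∃ Θ : ((Fin 3 → ℂ) × (Fin N → ℂ)) ≃ₜ ((Fin 3 → ℂ) × (Fin N → ℂ)),
      (∀ p t, (Θ (p, t)).2 = t ∧ (Θ (p, t)).1 1 = p 1 ∧ (Θ (p, t)).1 2 = p 2) ∧
      (∀ p t, p 2 = 0 → Θ (p, t) = (p, t)) ∧
      (∀ p t, p ∈ zeros (FF N e 0) ↔ (Θ (p, t)).1 ∈ zeros (FF N e t))) ∧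
    (∀ t t' : Fin N → ℂ, ∃ h : (Fin 3 → ℂ) ≃ₜ (Fin 3 → ℂ),
      h 0 = 0 ∧ h '' zeros (FF N e t) = zeros (FF N e t')) ∧
    (∀ t t' : Fin N → ℂ,
      (univ.filter (fun i => t i ≠ 0)).card ≠ (univ.filter (fun i => t' i ≠ 0)).card →
      IsEmpty (exc (FF N e t) ≃ₜ exc (FF N e t'))) := by
  obtain ⟨Θ, h1, h2, h3⟩ := exists_trivialisation N e
  refine ⟨irreducible_FF e, order_FF e, smooth_off_axis, ⟨Θ, h1, h2, h3⟩, ?_, ?_⟩
  · -- restrict the trivialisation to the fibres
    have key : ∀ t : Fin N → ℂ, ∃ g : (Fin 3 → ℂ) ≃ₜ (Fin 3 → ℂ), g 0 = 0 ∧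
        ∀ p, p ∈ zeros (FF N e 0) ↔ g p ∈ zeros (FF N e t) := by
      intro t
      have hs : ∀ q : Fin 3 → ℂ, Θ.symm (q, t) = ((Θ.symm (q, t)).1, t) := by
        intro q
        have h4 := (h1 (Θ.symm (q, t)).1 (Θ.symm (q, t)).2).1
        have h5 : Θ ((Θ.symm (q, t)).1, (Θ.symm (q, t)).2) = (q, t) := Θ.apply_symm_apply _
        rw [h5] at h4
        exact Prod.ext rfl h4.symm
      refine ⟨{ toFun := fun p => (Θ (p, t)).1, invFun := fun q => (Θ.symm (q, t)).1,
                left_inv := ?_, right_inv := ?_, continuous_toFun := ?_,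
                continuous_invFun := ?_ }, ?_, ?_⟩
      · intro p
        have h4 : Θ (p, t) = ((Θ (p, t)).1, t) := Prod.ext rfl (h1 p t).1
        simp only
        rw [← h4, Θ.symm_apply_apply]
      · intro q
        simp only
        rw [← hs q, Θ.apply_symm_apply]
      · exact continuous_fst.comp (Θ.continuous.comp (continuous_id.prodMk continuous_const))
      · exact continuous_fst.comp (Θ.symm.continuous.comp
          (continuous_id.prodMk continuous_const))
      · change (Θ (0, t)).1 = 0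
        rw [h2 0 t rfl]
      · exact fun p => h3 p t
    intro t t'
    obtain ⟨a, ha0, ha⟩ := key t
    obtain ⟨b, hb0, hb⟩ := key t'
    refine ⟨a.symm.trans b, ?_, ?_⟩
    · change b (a.symm 0) = 0
      have : a.symm 0 = 0 := by rw [a.symm_apply_eq, ha0]
      rw [this, hb0]
    · ext p
      constructor
      · rintro ⟨q, hq, rfl⟩
        change b (a.symm q) ∈ _
        rw [← hb, ha, a.apply_symm_apply]
        exact hq
      · intro hp
        refine ⟨a (b.symm p), ?_, ?_⟩
        · rw [← ha, hb, b.apply_symm_apply]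
          exact hp
        · change b (a.symm (a (b.symm p))) = p
          rw [a.symm_apply_apply, b.apply_symm_apply]
  · intro t t' h
    apply not_homeo hNe
    unfold sp
    convert h using 2

end Pool.Agent.Results.MP_f1850b_ag.TrivialFamily
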